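import Pool.Agent.Lib.helper20.TMRatio

namespace Pool.Agent.Results.MP_7d59ed_nt.Limit

open Pool.Agent.Lib.helper20.TMFib Filter Topology

lemma h_shift (k j L : ℕ) (hL : L ≤ 2 ^ k) (m : ℕ) (hm : m + 2 = 2 ^ k * j) :
    h (m + L) = (t j) ^ L * (t j * x 0 1 L * h (m + 1) + x 1 0 L * h m) ∧
    h (m + (L + 1)) = (t j) ^ (L + 1) *
      (t j * x 0 1 (L + 1) * h (m + 1) + x 1 0 (L + 1) * h m) := by
  have sq : t j * t j = 1 := by rcases t_pm j with e | e <;> rw [e] <;> norm_num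
  induction L with
  | zero =>
    simp only [x, pow_zero, pow_succ, add_zero, zero_add]
    constructor
    · ring
    · linear_combination (-h (m + 1)) * sq
  | succ L ih =>
    obtain ⟨h1, h2⟩ := ih (by omega)
    refine ⟨h2, ?_⟩
    rw [show m + (L + 1 + 1) = (m + L) + 2 by ring, h_succ,
      show m + L + 2 = 2 ^ k * j + L by omega, t_mul k j L (by omega), h1, add_assoc, h2,
      x_succ 0 1 L, x_succ 1 0 L]
    linear_combination (-(t j) ^ L * (t j * x 0 1 L * h (m + 1) + x 1 0 L * h m)) * sq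

lemma b_cone (j : ℕ) : 100 * (x 1 0 (16 * j + 1)).natAbs ≤ 31 * (x 1 0 (16 * j)).natAbs := by
  induction j with
  | zero => simp [x]
  | succ j ih =>
    refine (block (t j) (t_pm _) (fun i => x 1 0 (16 * j + i)) (fun i hi => ?_) ih).1
    have := t_mul 4 j i (by omega)
    rw [← this, ← add_assoc, x_succ]
    rfl

lemma blk (k j : ℕ) (m : ℕ) (hm : m + 2 = 2 ^ (k + 4) * (j + 1)) :
    (x 1 0 (2 ^ (k + 4))).natAbs * (h m).natAbs ≤ 2 * (h (m + 2 ^ (k + 4))).natAbs ∧
    (h (m + 2 ^ (k + 4))).natAbs ≤ 2 * ((x 1 0 (2 ^ (k + 4))).natAbs * (h m).natAbs) := by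
  have h1 := (h_shift (k + 4) (j + 1) _ le_rfl m hm).1
  have h2 := (invar (k + 3)).2
  have p : 2 ^ (k + 4) = 16 * 2 ^ k := by ring
  have h3 := b_cone (2 ^ k)
  rw [← p] at h3
  have hp : 1 ≤ 2 ^ k * (j + 1) := Nat.mul_pos (by positivity) (by omega)
  have h4 := ends (2 ^ k * (j + 1) - 1)
  have hm' : m + 2 = 16 * (2 ^ k * (j + 1)) := by rw [hm, p, mul_assoc]
  rw [show 16 * (2 ^ k * (j + 1) - 1) + 15 = m + 1 by omega,
    show 16 * (2 ^ k * (j + 1) - 1) + 14 = m by omega] at h4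
  have e1 : (t (j + 1) ^ 2 ^ (k + 4)).natAbs = 1 := by
    rcases t_pm (j + 1) with e | e <;> simp [e, Int.natAbs_pow]
  have e2 : (t (j + 1) * x 0 1 (2 ^ (k + 4)) * h (m + 1)).natAbs =
      (x 1 0 (2 ^ (k + 4) + 1)).natAbs * (h (m + 1)).natAbs := by
    rw [show k + 3 + 1 = k + 4 by ring] at h2
    rw [h2]
    rcases t_pm (j + 1) with e | e <;> simp [e, Int.natAbs_pow, Int.natAbs_mul]
  have e3 := Nat.mul_le_mul h3 h4
  have e4 : (x 1 0 (2 ^ (k + 4)) * h m).natAbs =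
    (x 1 0 (2 ^ (k + 4))).natAbs * (h m).natAbs := Int.natAbs_mul _ _
  rw [h1, Int.natAbs_mul, e1, one_mul, ← e4]
  have e5 : 10000 * (t (j + 1) * x 0 1 (2 ^ (k + 4)) * h (m + 1)).natAbs ≤
      961 * (x 1 0 (2 ^ (k + 4)) * h m).natAbs := by
    rw [e2, e4]
    linarith
  generalize t (j + 1) * x 0 1 (2 ^ (k + 4)) * h (m + 1) = u at *
  generalize x 1 0 (2 ^ (k + 4)) * h m = v at *
  omega

noncomputable def y (n : ℕ) : ℝ := Real.log ((h n).natAbs : ℝ)

lemma pos (n : ℕ) (hn : 14 ≤ n) : (0 : ℝ) < ((h n).natAbs : ℝ) := by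
  have : h n ≠ 0 := by
    rcases eq_or_lt_of_le hn with rfl | hn
    · rw [small _ (by norm_num)]
      decide
    · have := h_ne (n - 15)
      rwa [show n - 15 + 15 = n by omega] at this
  exact_mod_cast Int.natAbs_pos.mpr this

lemma log_cmp (a b c : ℝ) (ha : 0 < a) (hb : 0 < b) (hc : 0 < c) (h1 : a ≤ c * b)
    (h2 : b ≤ c * a) : |Real.log a - Real.log b| ≤ Real.log c := by
  have e1 := Real.log_le_log ha h1
  have e2 := Real.log_le_log hb h2
  rw [Real.log_mul hc.ne' hb.ne'] at e1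
  rw [Real.log_mul hc.ne' ha.ne'] at e2
  exact abs_le.mpr ⟨by linarith, by linarith⟩

lemma step (n : ℕ) (hn : 14 ≤ n) : |y (n + 1) - y n| ≤ Real.log 8 := by
  refine log_cmp _ _ _ (pos _ (by omega)) (pos _ hn) (by norm_num) ?_ ?_
  · have : (h (n + 1)).natAbs ≤ 8 * (h n).natAbs := by
      by_cases h16 : n < 16
      · interval_cases n
        · decide +kernel
        · decide +kernel
      · obtain ⟨m, rfl⟩ : ∃ m, n = m + 1 := ⟨n - 1, by omega⟩
        have h1 := ratio m (by omega)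
        have h2 := h_succ m
        rw [show m + 1 + 1 = m + 2 by ring]
        rcases t_pm (m + 2) with e | e <;> rw [e] at h2 <;> omega
    exact_mod_cast this
  · have : (h n).natAbs ≤ 8 * (h (n + 1)).natAbs := by
      rcases eq_or_lt_of_le hn with rfl | hn
      · decide +kernel
      · have h1 := ratio n (by omega)
        omega
    exact_mod_cast this

lemma steps (n : ℕ) (hn : 14 ≤ n) (r : ℕ) : |y (n + r) - y n| ≤ r * Real.log 8 := by
  induction r with
  | zero => simp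
  | succ r ih =>
    have := step (n + r) (by omega)
    rw [← add_assoc]
    push_cast
    rw [abs_le] at *
    constructor <;> linarith

noncomputable def c (k : ℕ) : ℝ := Real.log ((x 1 0 (2 ^ (k + 4))).natAbs : ℝ)

lemma blk_log (k j : ℕ) (m : ℕ) (hm : m + 2 = 2 ^ (k + 4) * (j + 1)) :
    |y (m + 2 ^ (k + 4)) - y m - c k| ≤ Real.log 2 := by
  have p : 2 ^ (k + 4) = 16 * 2 ^ k := by ring
  have hp : 1 ≤ 2 ^ k * (j + 1) := Nat.mul_pos (by positivity) (by omega)
  have hm' : m + 2 = 16 * (2 ^ k * (j + 1)) := by rw [hm, p, mul_assoc]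
  obtain ⟨h1, h2⟩ := blk k j m hm
  have a1 := pos m (by omega)
  have a2 := pos (m + 2 ^ (k + 4)) (by omega)
  have a3 : (0 : ℝ) < ((x 1 0 (2 ^ (k + 4))).natAbs : ℝ) := by
    have : (x 1 0 (2 ^ (k + 4))).natAbs ≠ 0 := by
      intro h0
      rw [h0] at h2
      have : 0 < (h (m + 2 ^ (k + 4))).natAbs := by exact_mod_cast a2
      omega
    positivity
  have := log_cmp _ (((x 1 0 (2 ^ (k + 4))).natAbs : ℝ) * ((h m).natAbs : ℝ)) 2 a2
    (by positivity) (by norm_num) (by exact_mod_cast h2) (by exact_mod_cast h1)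
  rw [Real.log_mul a3.ne' a1.ne'] at this
  unfold y c
  rwa [add_comm (Real.log _) (Real.log _), ← sub_sub] at this

lemma blks (k : ℕ) (m : ℕ) (hm : m + 2 = 2 ^ (k + 4)) (j : ℕ) :
    |y (m + 2 ^ (k + 4) * j) - y m - j * c k| ≤ j * Real.log 2 := by
  induction j with
  | zero => simp
  | succ j ih =>
    have := blk_log k j (m + 2 ^ (k + 4) * j) (by rw [mul_add]; omega)
    rw [mul_add, mul_one, ← add_assoc]
    push_cast
    rw [abs_le] at *
    constructor <;> linarith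

lemma approx (k : ℕ) : ∃ K : ℝ, ∀ n : ℕ, 2 ^ (k + 4) ≤ n →
    |y n / n - c k / 2 ^ (k + 4)| ≤ Real.log 2 / 2 ^ (k + 4) + K / n := by
  have p : 2 ^ (k + 4) = 16 * 2 ^ k := by ring
  have hp : 1 ≤ 2 ^ k := Nat.one_le_two_pow
  set N := 2 ^ (k + 4) with hN
  refine ⟨|y (N - 2)| + N * Real.log 8 + 2 * |c k|, fun n hn => ?_⟩
  set j := (n - (N - 2)) / N
  set r := (n - (N - 2)) % N
  have d1 : N * j + r = n - (N - 2) := Nat.div_add_mod (n - (N - 2)) N
  have d2 : r < N := Nat.mod_lt _ (by omega)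
  clear_value j r
  have e : n = N - 2 + N * j + r := by omega
  have h1 := blks k (N - 2) (by omega) j
  have h2 := steps (N - 2 + N * j) (by omega) r
  rw [← e] at h2
  have hN0 : (0 : ℝ) < N := by exact_mod_cast (by omega : 0 < N)
  have hn0 : (0 : ℝ) < n := by exact_mod_cast (by omega : 0 < n)
  have q1 : (N : ℝ) * j ≤ n := by exact_mod_cast (by omega : N * j ≤ n)
  have q2 : (n : ℝ) ≤ N * j + 2 * N := by exact_mod_cast (by omega : n ≤ N * j + 2 * N)
  have q3 : (r : ℝ) ≤ N := by exact_mod_cast d2.le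
  have l2 : 0 < Real.log 2 := Real.log_pos (by norm_num)
  have l8 : 0 < Real.log 8 := Real.log_pos (by norm_num)
  have hNc : ((2 : ℝ) ^ (k + 4)) = N := by rw [hN]; push_cast; ring
  rw [hNc]
  have q4 : |(j : ℝ) * c k - n / N * c k| ≤ 2 * |c k| := by
    rw [← sub_mul, abs_mul]
    refine mul_le_mul_of_nonneg_right (abs_le.mpr ⟨?_, ?_⟩) (abs_nonneg _)
    · have : (n : ℝ) / N ≤ j + 2 := by rw [div_le_iff₀ hN0]; linarith
      linarith
    · have : (j : ℝ) ≤ n / N := by rw [le_div_iff₀ hN0]; linarith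
      linarith
  have q5 : (j : ℝ) * Real.log 2 ≤ n / N * Real.log 2 :=
    mul_le_mul_of_nonneg_right (by rw [le_div_iff₀ hN0]; linarith) l2.le
  have q6 : (r : ℝ) * Real.log 8 ≤ N * Real.log 8 := mul_le_mul_of_nonneg_right q3 l8.le
  have q7 : |y n - n / N * c k| ≤
      n / N * Real.log 2 + (|y (N - 2)| + N * Real.log 8 + 2 * |c k|) := by
    have a1 := le_abs_self (y (N - 2))
    have a2 := neg_abs_le (y (N - 2))
    rw [abs_le] at h1 h2 q4 ⊢
    constructor <;> linarith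
  have e1 : y n / n - c k / N = (y n - n / N * c k) / n := by field_simp
  have e2 : Real.log 2 / N + (|y (N - 2)| + N * Real.log 8 + 2 * |c k|) / n =
      (n / N * Real.log 2 + (|y (N - 2)| + N * Real.log 8 + 2 * |c k|)) / n := by field_simp
  rw [e1, e2, abs_div, abs_of_pos hn0]
  exact div_le_div_of_nonneg_right q7 hn0.le

lemma conv : ∃ L : ℝ, Tendsto (fun n : ℕ => y n / n) atTop (𝓝 L) := by
  apply cauchySeq_tendsto_of_complete
  rw [Metric.cauchySeq_iff]
  intro ε hε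
  have t1 : Tendsto (fun k : ℕ => Real.log 2 / 2 ^ (k + 4)) atTop (𝓝 0) :=
    tendsto_const_nhds.div_atTop
      ((tendsto_pow_atTop_atTop_of_one_lt (by norm_num : (1 : ℝ) < 2)).comp
        (tendsto_add_atTop_nat 4))
  obtain ⟨k, hk⟩ := (t1.eventually (gt_mem_nhds (show (0 : ℝ) < ε / 4 by linarith))).exists
  obtain ⟨K, hK⟩ := approx k
  obtain ⟨M, hM⟩ := eventually_atTop.mp ((tendsto_const_div_atTop_nhds_zero_nat K).eventually
    (gt_mem_nhds (show (0 : ℝ) < ε / 4 by linarith)))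
  refine ⟨max M (2 ^ (k + 4)), fun m hm n hn => ?_⟩
  have a1 := hK m (le_of_max_le_right hm)
  have a2 := hK n (le_of_max_le_right hn)
  have a3 := hM m (le_of_max_le_left hm)
  have a4 := hM n (le_of_max_le_left hn)
  rw [Real.dist_eq, abs_lt]
  rw [abs_le] at a1 a2
  constructor <;> linarith

def quad : ℕ → ℤ × ℤ × ℤ × ℤ
  | 0 => (0, -1, 1, 1)
  | k + 1 =>
    let q := quad k
    (q.1 * q.1 - q.2.1 * q.2.2.1, q.1 * q.2.1 - q.2.1 * q.2.2.2,
      -q.2.2.1 * q.1 + q.2.2.2 * q.2.2.1, -q.2.2.1 * q.2.1 + q.2.2.2 * q.2.2.2)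

lemma quad_eq (k : ℕ) : quad k = (x 0 1 (2 ^ (k + 1) + 1), x 1 0 (2 ^ (k + 1) + 1),
    x 0 1 (2 ^ (k + 1)), x 1 0 (2 ^ (k + 1))) := by
  induction k with
  | zero => simp [quad, x, t_zero, t_one]
  | succ k ih =>
    obtain ⟨a1, a2⟩ := x_double 0 1 k
    obtain ⟨b1, b2⟩ := x_double 1 0 k
    rw [quad, ih, show k + 1 + 1 = k + 2 by ring, a1, a2, b1, b2]

lemma num : 2 * 1152 ^ 4096 < (quad 11).2.2.2.natAbs * 1000 ^ 4096 ∧
    2 * (quad 11).2.2.2.natAbs * 1000 ^ 4096 < 1153 ^ 4096 := by decide +kernel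

lemma logs (E D : ℕ) (n1 : 2 * 1152 ^ E < D * 1000 ^ E) (n2 : 2 * D * 1000 ^ E < 1153 ^ E) :
    Real.log 2 + E * Real.log 1152 < Real.log D + E * Real.log 1000 ∧
    Real.log 2 + Real.log D + E * Real.log 1000 < E * Real.log 1153 := by
  have hD : (0 : ℝ) < D := by
    have : D ≠ 0 := by
      rintro rfl
      simp at n1
    positivity
  have n1' : (2 : ℝ) * 1152 ^ E < D * 1000 ^ E := by exact_mod_cast n1
  have n2' : (2 : ℝ) * D * 1000 ^ E < 1153 ^ E := by exact_mod_cast n2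
  have l1 := Real.log_lt_log (by positivity) n1'
  have l2 := Real.log_lt_log (by positivity) n2'
  rw [Real.log_mul (by positivity) (by positivity), Real.log_mul (by positivity) (by positivity),
    Real.log_pow, Real.log_pow] at l1
  rw [Real.log_mul (by positivity) (by positivity), Real.log_mul (by positivity) (by positivity),
    Real.log_pow, Real.log_pow] at l2
  exact ⟨l1, l2⟩

theorem result : ∃ g : ℝ, 1152 / 1000 < g ∧ g < 1153 / 1000 ∧
    Tendsto (fun n : ℕ => |(h n : ℝ)| ^ ((1 : ℝ) / n)) atTop (𝓝 g) := by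
  obtain ⟨L, hL⟩ := conv
  obtain ⟨K, hK⟩ := approx 8
  have b : |L - c 8 / 2 ^ (8 + 4)| ≤ Real.log 2 / 2 ^ (8 + 4) + 0 :=
    le_of_tendsto_of_tendsto (hL.sub_const _).abs
      ((tendsto_const_div_atTop_nhds_zero_nat K).const_add _)
      (eventually_atTop.mpr ⟨_, hK⟩)
  obtain ⟨n1, n2⟩ := num
  have e : c 8 = Real.log ((quad 11).2.2.2.natAbs : ℝ) := by rw [quad_eq]; rfl
  generalize (quad 11).2.2.2.natAbs = D at *
  obtain ⟨l1, l2⟩ := logs 4096 D n1 n2
  rw [e, abs_le] at b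
  refine ⟨Real.exp L, ?_, ?_, ?_⟩
  · rw [← Real.log_lt_iff_lt_exp (by norm_num), Real.log_div (by norm_num) (by norm_num)]
    push_cast at l1
    linarith [b.1]
  · rw [← Real.lt_log_iff_exp_lt (by norm_num), Real.log_div (by norm_num) (by norm_num)]
    push_cast at l2
    linarith [b.2]
  · refine ((Real.continuous_exp.tendsto L).comp hL).congr' (eventually_atTop.mpr ⟨14, ?_⟩)
    intro n hn
    have := pos n hn
    rw [Nat.cast_natAbs, Int.cast_abs] at this
    simp only [Function.comp_apply, y]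
    rw [Real.rpow_def_of_pos this, Nat.cast_natAbs, Int.cast_abs, mul_one_div]

end Pool.Agent.Results.MP_7d59ed_nt.Limit
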